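import Mathlib
import Pool.Agent.H48.Axial

set_option autoImplicit false

namespace Pool.Agent.Results.MP_8db76d_al.Counterexample

section Defs

variable (F : Type) [Field F] {A : Type} [NonUnitalNonAssocCommRing A] [Module F A]
  [IsScalarTower F A A] [SMulCommClass F A A]

/-- `A_l(a) = {v : a v = l v}`. -/
def eig (a : A) (l : F) : Submodule F A := Module.End.eigenspace (LinearMap.mulLeft F a) l

/-- `a` is a primitive axis for the fusion law `(𝓕, star)`. -/
def IsPrimAxis (𝓕 : Set F) (star : F → F → Set F) (a : A) : Prop :=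
  a ≠ 0 ∧ a * a = a ∧
  iSupIndep (fun l : 𝓕 => eig F a l) ∧ (⨆ l : 𝓕, eig F a l) = ⊤ ∧
  (∀ l ∈ 𝓕, ∀ m ∈ 𝓕, ∀ x ∈ eig F a l, ∀ y ∈ eig F a m,
    x * y ∈ ⨆ n : star l m, eig F a n) ∧
  eig F a 1 = Submodule.span F {a}

/-- The non-annihilation graph of `X`. -/
def nonAnnGraph (X : Set A) : SimpleGraph X where
  Adj a b := a ≠ b ∧ (a : A) * b ≠ 0
  symm := ⟨fun a b h => ⟨h.1.symm, by rw [mul_comm]; exact h.2⟩⟩
  loopless := ⟨fun _ h => h.1 rfl⟩

variable (A) in
/-- `A ≠ 0` and `A` is not a direct sum of `k ≥ 2` nonzero, pairwise annihilating ideals. -/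
def Indecomposable : Prop :=
  Nontrivial A ∧ ¬ ∃ (k : ℕ) (I : Fin k → Submodule F A), 2 ≤ k ∧
    (∀ i, I i ≠ ⊥) ∧ (∀ i, ∀ x ∈ I i, ∀ y : A, y * x ∈ I i) ∧
    iSupIndep I ∧ (⨆ i, I i) = ⊤ ∧ (∀ i j, i ≠ j → ∀ x ∈ I i, ∀ y ∈ I j, x * y = 0)

variable (A) in
/-- Every family of pairwise annihilating subalgebras generating `A` consists of `A` and zeros
(no directness is required). -/
def NoSumDecomposition : Prop :=
  ∀ (ι : Type) (B : ι → NonUnitalSubalgebra F A), (⨆ i, B i) = ⊤ →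
    (∀ i j, i ≠ j → ∀ x ∈ B i, ∀ y ∈ B j, x * y = 0) →
    ∃ i, B i = ⊤ ∧ ∀ j, j ≠ i → B j = ⊥

end Defs

section Proof

open H48.Axial

variable {F : Type} [Field F]

theorem mem_eig {A : Type} [NonUnitalNonAssocCommRing A] [Module F A]
    [IsScalarTower F A A] [SMulCommClass F A A] {a x : A} {l : F} :
    x ∈ eig F a l ↔ a * x = l • x := by
  simp [eig, Module.End.mem_eigenspace_iff]

theorem eig_map {A : Type} [NonUnitalNonAssocCommRing A] [Module F A]
    [IsScalarTower F A A] [SMulCommClass F A A] (e : A ≃ₗ[F] A)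
    (he : ∀ x y, e (x * y) = e x * e y) (a : A) (l : F) :
    eig F (e a) l = (eig F a l).map e.toLinearMap := by
  ext x
  obtain ⟨y, rfl⟩ := e.surjective x
  rw [mem_eig, ← he, ← map_smul, e.injective.eq_iff, ← mem_eig]
  constructor
  · intro h; exact ⟨y, h, rfl⟩
  · rintro ⟨z, hz, hzy⟩
    rwa [← e.injective hzy]

theorem IsPrimAxis.map {A : Type} [NonUnitalNonAssocCommRing A] [Module F A]
    [IsScalarTower F A A] [SMulCommClass F A A] {𝓕 : Set F} {star : F → F → Set F} {a : A}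
    (h : IsPrimAxis F 𝓕 star a) (e : A ≃ₗ[F] A) (he : ∀ x y, e (x * y) = e x * e y) :
    IsPrimAxis F 𝓕 star (e a) := by
  obtain ⟨h1, h2, -, h4, h5, h6⟩ := h
  refine ⟨by simpa using h1, by rw [← he, h2],
    (Module.End.eigenspaces_iSupIndep _).comp Subtype.val_injective, ?_, ?_, ?_⟩
  · simp only [eig_map e he]
    rw [← Submodule.map_iSup, h4, Submodule.map_top, LinearEquiv.range]
  · intro l hl m hm x hx y hy
    simp only [eig_map e he] at hx hy ⊢
    obtain ⟨x, hx, rfl⟩ := hx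
    obtain ⟨y, hy, rfl⟩ := hy
    rw [← Submodule.map_iSup]
    exact ⟨x * y, h5 l hl m hm x hx y hy, he x y⟩
  · rw [eig_map e he, h6, Submodule.map_span, Set.image_singleton]
    rfl

/-- the fusion law -/
def law (l m : F) : Set F :=
  {n | (l = 1 ∧ m ≠ 0 ∧ n = m) ∨ (m = 1 ∧ l ≠ 0 ∧ n = l) ∨ (l = 0 ∧ m ≠ 1 ∧ n = m) ∨
    (m = 0 ∧ l ≠ 1 ∧ n = l) ∨ (l = 2 ∧ m = 2 ∧ (n = 1 ∨ n = 0 ∨ n = 2)) ∨
    (l = -1 ∧ m = -1 ∧ (n = 1 ∨ n = 0 ∨ n = -1)) ∨ (l = 2 ∧ m = -1 ∧ n = 0) ∨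
    (l = -1 ∧ m = 2 ∧ n = 0)}

theorem law_symm (l m : F) : law l m ⊆ law m l := by
  rintro n (h | h | h | h | ⟨h1, h2, h⟩ | ⟨h1, h2, h⟩ | ⟨h1, h2, h⟩ | ⟨h1, h2, h⟩)
  · exact .inr (.inl h)
  · exact .inl h
  · exact .inr (.inr (.inr (.inl h)))
  · exact .inr (.inr (.inl h))
  · exact .inr (.inr (.inr (.inr (.inl ⟨h2, h1, h⟩))))
  · exact .inr (.inr (.inr (.inr (.inr (.inl ⟨h2, h1, h⟩)))))
  · exact .inr (.inr (.inr (.inr (.inr (.inr (.inr ⟨h2, h1, h⟩))))))
  · exact .inr (.inr (.inr (.inr (.inr (.inr (.inl ⟨h2, h1, h⟩))))))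

theorem e1 (c : F) : v c 0 0 0 0 0 0 ∈ eig F (a : A F) 1 := by
  simp [mem_eig, a, v_mul, v_smul]
theorem e0 (x3 x4 x5 x6 : F) : v 0 0 0 x3 x4 x5 x6 ∈ eig F (a : A F) 0 := by
  simp [mem_eig, a, v_mul, v_zero, -zero_smul, v_smul]
theorem e2 (c : F) : v 0 c c 0 0 0 0 ∈ eig F (a : A F) 2 := by
  simp [mem_eig, a, v_mul, v_smul, v_inj, two_mul]
theorem em (c : F) : v 0 (-2 * c) c 0 0 0 0 ∈ eig F (a : A F) (-1) := by
  simp [mem_eig, a, v_mul, v_smul, v_inj, -neg_smul]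
  ring

variable [CharZero F]

theorem d1 {x : A F} (h : x ∈ eig F (a : A F) 1) : ∃ c, x = v c 0 0 0 0 0 0 := by
  obtain ⟨x0, x1, x2, x3, x4, x5, x6, rfl⟩ := eq_v x
  simp only [mem_eig, a, v_mul, v_smul, v_inj] at h
  obtain ⟨-, h1, h2, h3, h4, h5, h6⟩ := h
  have k1 : x1 = 0 := by linear_combination h2
  have k2 : x2 = 0 := by linear_combination (1 / 2 : F) * h1 + (1 / 2 : F) * h2
  exact ⟨x0, v_inj.mpr ⟨rfl, k1, k2, by linear_combination -h3, by linear_combination -h4,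
    by linear_combination -h5, by linear_combination -h6⟩⟩

theorem d0 {x : A F} (h : x ∈ eig F (a : A F) 0) : ∃ x3 x4 x5 x6, x = v 0 0 0 x3 x4 x5 x6 := by
  obtain ⟨x0, x1, x2, x3, x4, x5, x6, rfl⟩ := eq_v x
  simp only [mem_eig, a, v_mul, v_smul, v_inj] at h
  obtain ⟨h0, h1, h2, -⟩ := h
  exact ⟨x3, x4, x5, x6, v_inj.mpr ⟨by linear_combination h0,
    by linear_combination h2 - (1 / 2 : F) * h1, by linear_combination (1 / 2 : F) * h1,
    rfl, rfl, rfl, rfl⟩⟩

theorem d2 {x : A F} (h : x ∈ eig F (a : A F) 2) : ∃ c, x = v 0 c c 0 0 0 0 := by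
  obtain ⟨x0, x1, x2, x3, x4, x5, x6, rfl⟩ := eq_v x
  simp only [mem_eig, a, v_mul, v_smul, v_inj] at h
  obtain ⟨h0, h1, h2, h3, h4, h5, h6⟩ := h
  exact ⟨x2, v_inj.mpr ⟨by linear_combination -h0, by linear_combination h2, rfl,
    by linear_combination (-1 / 2 : F) * h3, by linear_combination (-1 / 2 : F) * h4,
    by linear_combination (-1 / 2 : F) * h5, by linear_combination (-1 / 2 : F) * h6⟩⟩

theorem dm {x : A F} (h : x ∈ eig F (a : A F) (-1)) : ∃ c, x = v 0 (-2 * c) c 0 0 0 0 := by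
  obtain ⟨x0, x1, x2, x3, x4, x5, x6, rfl⟩ := eq_v x
  simp only [mem_eig, a, v_mul, v_smul, v_inj] at h
  obtain ⟨h0, h1, h2, h3, h4, h5, h6⟩ := h
  exact ⟨x2, v_inj.mpr ⟨by linear_combination (1 / 2 : F) * h0, by linear_combination h2, rfl,
    by linear_combination h3, by linear_combination h4,
    by linear_combination h5, by linear_combination h6⟩⟩

omit [CharZero F] in
theorem mem1 {S : Set F} {n : F} (hn : n ∈ S) {z w : A F} (hw : w ∈ eig F (a : A F) n)
    (e : z = w) : z ∈ ⨆ n : S, eig F (a : A F) n :=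
  e ▸ Submodule.mem_iSup_of_mem (⟨n, hn⟩ : S) hw

omit [CharZero F] in
theorem mem3 {S : Set F} {n1 n2 n3 : F} (h1 : n1 ∈ S) (h2 : n2 ∈ S) (h3 : n3 ∈ S)
    {z w1 w2 w3 : A F} (hw1 : w1 ∈ eig F (a : A F) n1) (hw2 : w2 ∈ eig F (a : A F) n2)
    (hw3 : w3 ∈ eig F (a : A F) n3) (e : z = w1 + w2 + w3) :
    z ∈ ⨆ n : S, eig F (a : A F) n :=
  e ▸ Submodule.add_mem _ (Submodule.add_mem _ (mem1 h1 hw1 rfl) (mem1 h2 hw2 rfl))
    (mem1 h3 hw3 rfl)

omit [CharZero F] in
theorem mem0 {S : Set F} {z : A F} (e : z = v 0 0 0 0 0 0 0) :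
    z ∈ ⨆ n : S, eig F (a : A F) n := by
  rw [e, ← v_zero]; exact Submodule.zero_mem _

theorem axis_a : IsPrimAxis F {1, 0, 2, -1} law (a : A F) := by
  refine ⟨by simp [a, v_zero, v_inj], by simp [a, v_mul],
    (Module.End.eigenspaces_iSupIndep _).comp Subtype.val_injective, ?_, ?_, ?_⟩
  · rw [eq_top_iff]
    intro x _
    obtain ⟨x0, x1, x2, x3, x4, x5, x6, rfl⟩ := eq_v x
    have e : v x0 x1 x2 x3 x4 x5 x6 = v x0 0 0 0 0 0 0 + v 0 0 0 x3 x4 x5 x6
        + v 0 ((x1 + 2 * x2) / 3) ((x1 + 2 * x2) / 3) 0 0 0 0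
        + v 0 (-2 * ((x2 - x1) / 3)) ((x2 - x1) / 3) 0 0 0 0 := by
      simp only [v_add]
      rw [v_inj]
      refine ⟨?_, ?_, ?_, ?_, ?_, ?_, ?_⟩ <;> ring
    rw [e]
    exact Submodule.add_mem _ (mem3 (by simp) (by simp) (by simp) (e1 _) (e0 _ _ _ _) (e2 _) rfl)
      (mem1 (by simp) (em _) rfl)
  · intro l hl m hm x hx y hy
    simp only [Set.mem_insert_iff, Set.mem_singleton_iff] at hl hm
    rcases hl with rfl | rfl | rfl | rfl <;> rcases hm with rfl | rfl | rfl | rfl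
    · obtain ⟨c, rfl⟩ := d1 hx; obtain ⟨d, rfl⟩ := d1 hy
      exact mem1 (by simp [law]) (e1 (c * d)) (by simp [v_mul])
    · obtain ⟨c, rfl⟩ := d1 hx; obtain ⟨_, _, _, _, rfl⟩ := d0 hy
      exact mem0 (by simp [v_mul])
    · obtain ⟨c, rfl⟩ := d1 hx; obtain ⟨d, rfl⟩ := d2 hy
      exact mem1 (by simp [law]) (e2 (2 * (c * d))) (by simp [v_mul, v_inj]; ring)
    · obtain ⟨c, rfl⟩ := d1 hx; obtain ⟨d, rfl⟩ := dm hy
      exact mem1 (by simp [law]) (em (-(c * d))) (by simp [v_mul, v_inj]; ring)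
    · obtain ⟨_, _, _, _, rfl⟩ := d0 hx; obtain ⟨d, rfl⟩ := d1 hy
      exact mem0 (by simp [v_mul])
    · obtain ⟨_, _, _, _, rfl⟩ := d0 hx; obtain ⟨_, _, _, _, rfl⟩ := d0 hy
      exact mem1 (by simp [law]) (e0 _ _ _ _) (by rw [v_mul, v_inj]; simp; exact ⟨rfl, rfl, rfl, rfl⟩)
    · obtain ⟨_, _, _, _, rfl⟩ := d0 hx; obtain ⟨d, rfl⟩ := d2 hy
      exact mem0 (by simp [v_mul])
    · obtain ⟨_, _, _, _, rfl⟩ := d0 hx; obtain ⟨d, rfl⟩ := dm hy
      exact mem0 (by simp [v_mul])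
    · obtain ⟨c, rfl⟩ := d2 hx; obtain ⟨d, rfl⟩ := d1 hy
      exact mem1 (by simp [law]) (e2 (2 * (c * d))) (by simp [v_mul, v_inj]; ring)
    · obtain ⟨c, rfl⟩ := d2 hx; obtain ⟨_, _, _, _, rfl⟩ := d0 hy
      exact mem0 (by simp [v_mul])
    · obtain ⟨c, rfl⟩ := d2 hx; obtain ⟨d, rfl⟩ := d2 hy
      exact mem3 (by simp [law]) (by simp [law]) (by simp [law]) (e1 (6 * (c * d)))
        (e0 0 0 0 (c * d)) (e2 (3 * (c * d)))
        (by simp only [v_mul, v_add]; rw [v_inj]; refine ⟨?_, ?_, ?_, ?_, ?_, ?_, ?_⟩ <;> ring)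
    · obtain ⟨c, rfl⟩ := d2 hx; obtain ⟨d, rfl⟩ := dm hy
      exact mem1 (by simp [law]) (e0 0 0 0 (c * d))
        (by simp only [v_mul]; rw [v_inj]; refine ⟨?_, ?_, ?_, ?_, ?_, ?_, ?_⟩ <;> ring)
    · obtain ⟨c, rfl⟩ := dm hx; obtain ⟨d, rfl⟩ := d1 hy
      exact mem1 (by simp [law]) (em (-(c * d))) (by simp [v_mul, v_inj]; ring)
    · obtain ⟨c, rfl⟩ := dm hx; obtain ⟨_, _, _, _, rfl⟩ := d0 hy
      exact mem0 (by simp [v_mul])
    · obtain ⟨c, rfl⟩ := dm hx; obtain ⟨d, rfl⟩ := d2 hy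
      exact mem1 (by simp [law]) (e0 0 0 0 (c * d))
        (by simp only [v_mul]; rw [v_inj]; refine ⟨?_, ?_, ?_, ?_, ?_, ?_, ?_⟩ <;> ring)
    · obtain ⟨c, rfl⟩ := dm hx; obtain ⟨d, rfl⟩ := dm hy
      exact mem3 (by simp [law]) (by simp [law]) (by simp [law]) (e1 (-6 * (c * d)))
        (e0 0 0 0 (c * d)) (em (-3 * (c * d)))
        (by simp only [v_mul, v_add]; rw [v_inj]; refine ⟨?_, ?_, ?_, ?_, ?_, ?_, ?_⟩ <;> ring)
  · apply le_antisymm
    · intro x hx
      obtain ⟨c, rfl⟩ := d1 hx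
      exact Submodule.mem_span_singleton.mpr ⟨c, by simp [a, v_smul]⟩
    · rw [Submodule.span_le, Set.singleton_subset_iff]
      exact e1 1

theorem noSum : NoSumDecomposition F (A F) := by
  intro ι B hB hz
  let S : NonUnitalSubalgebra F (A F) :=
    { (⨆ i, (B i).toSubmodule) with
      mul_mem' := by
        intro x y hx hy
        change x * y ∈ ⨆ i, (B i).toSubmodule
        change x ∈ ⨆ i, (B i).toSubmodule at hx
        change y ∈ ⨆ i, (B i).toSubmodule at hy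
        induction hx using Submodule.iSup_induction' with
        | mem i x hx =>
          induction hy using Submodule.iSup_induction' with
          | mem j y hy =>
            by_cases hij : i = j
            · subst hij
              exact Submodule.mem_iSup_of_mem i ((B i).mul_mem hx hy)
            · rw [hz i j hij x hx y hy]; exact Submodule.zero_mem _
          | zero => rw [mul_zero]; exact Submodule.zero_mem _
          | add y z _ _ h1 h2 => rw [mul_add]; exact Submodule.add_mem _ h1 h2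
        | zero => rw [zero_mul]; exact Submodule.zero_mem _
        | add x z _ _ h1 h2 => rw [add_mul]; exact Submodule.add_mem _ h1 h2 }
  have hS : (⨆ i, (B i).toSubmodule) = ⊤ := by
    rw [eq_top_iff]
    intro x _
    have h1 : (⨆ i, B i) ≤ S := iSup_le fun i z hz => Submodule.mem_iSup_of_mem i hz
    rw [hB] at h1
    exact h1 (NonUnitalAlgebra.mem_top (x := x))
  have hI : ∀ i, Idl (B i).toSubmodule := by
    intro i x hx y
    have hy : y ∈ ⨆ i, (B i).toSubmodule := by rw [hS]; trivial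
    induction hy using Submodule.iSup_induction' with
    | mem j y hy =>
      by_cases hij : j = i
      · subst hij
        exact (B j).mul_mem hy hx
      · rw [hz j i hij y hy x hx]; exact Submodule.zero_mem _
    | zero => rw [zero_mul]; exact Submodule.zero_mem _
    | add y z _ _ h1 h2 => rw [add_mul]; exact Submodule.add_mem _ h1 h2
  obtain ⟨i, hi, hj⟩ := family (fun i => (B i).toSubmodule) hI hS hz
  refine ⟨i, ?_, fun j h => ?_⟩
  · rw [eq_top_iff]
    intro x _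
    have : x ∈ (B i).toSubmodule := by rw [hi]; trivial
    exact this
  · rw [eq_bot_iff]
    intro x hx
    have : x ∈ (B j).toSubmodule := hx
    rw [hj j h, Submodule.mem_bot] at this
    rw [this]; exact zero_mem _

end Proof

open H48.Axial in
/-- Over every field of characteristic zero there is a finite-dimensional indecomposable primitive
axial algebra, for a finite fusion law of Seress type, with disconnected non-annihilation graph. -/
theorem result (F : Type) [Field F] [CharZero F] :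
    ∃ (A : Type) (_ : NonUnitalNonAssocCommRing A) (_ : Module F A) (_ : IsScalarTower F A A)
      (_ : SMulCommClass F A A) (𝓕 : Set F) (star : F → F → Set F) (X : Set A),
      FiniteDimensional F A ∧ 𝓕.Finite ∧ X.Finite ∧ 1 ∈ 𝓕 ∧ 0 ∈ 𝓕 ∧
      (∀ l ∈ 𝓕, ∀ m ∈ 𝓕, star l m ⊆ 𝓕 ∧ star l m = star m l) ∧
      (∀ l ∈ 𝓕, star 0 l ⊆ {l} ∧ star 1 l ⊆ {l}) ∧
      (∀ a ∈ X, IsPrimAxis F 𝓕 star a) ∧ NonUnitalAlgebra.adjoin F X = ⊤ ∧
      Indecomposable F A ∧ NoSumDecomposition F A ∧ ¬ (nonAnnGraph X).Preconnected := by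
  have h21 : (2 : F) ≠ 1 := by norm_num
  have h20 : (2 : F) ≠ 0 := by norm_num
  have hm1 : (-1 : F) ≠ 1 := by norm_num
  have hm2 : (-1 : F) ≠ 2 := by norm_num
  refine ⟨A F, inferInstance, inferInstance, inferInstance, inferInstance, {1, 0, 2, -1}, law,
    {a, b, a', b'}, inferInstance, Set.toFinite _, Set.toFinite _, by simp, by simp, ?_, ?_, ?_,
    ?_, ⟨⟨a, 0, axis_a.1⟩, ?_⟩, noSum, ?_⟩
  · intro l hl m hm
    refine ⟨fun n hn => ?_, ?_⟩
    · rcases hn with ⟨-, -, rfl⟩ | ⟨-, -, rfl⟩ | ⟨-, -, rfl⟩ | ⟨-, -, rfl⟩ |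
        ⟨-, -, rfl | rfl | rfl⟩ | ⟨-, -, rfl | rfl | rfl⟩ | ⟨-, -, rfl⟩ | ⟨-, -, rfl⟩ <;>
        first | exact hl | exact hm | simp
    · exact Set.Subset.antisymm (law_symm l m) (law_symm m l)
  · intro l hl
    refine ⟨fun n hn => ?_, fun n hn => ?_⟩
    · simp [law, h20.symm] at hn
      rcases hn with ⟨-, rfl⟩ | ⟨rfl, rfl⟩ <;> rfl
    · simp [law, h21.symm, hm1.symm] at hn
      rcases hn with ⟨-, rfl⟩ | ⟨rfl, rfl⟩ <;> rfl
  · have hb : IsPrimAxis F {1, 0, 2, -1} law (b : A F) := by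
      have := axis_a.map (F := F) (perm σ1) perm1_mul
      rwa [a, perm1_v] at this
    intro x hx
    rcases hx with rfl | rfl | rfl | rfl
    · exact axis_a
    · exact hb
    · have := axis_a.map (F := F) (perm σ2) perm2_mul
      rwa [a, perm2_v] at this
    · have := hb.map (F := F) (perm σ2) perm2_mul
      rwa [b, perm2_v] at this
  · set T := NonUnitalAlgebra.adjoin F ({a, b, a', b'} : Set (A F))
    have ha : a ∈ T := NonUnitalAlgebra.subset_adjoin F (by simp)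
    have hb : b ∈ T := NonUnitalAlgebra.subset_adjoin F (by simp)
    have ha' : a' ∈ T := NonUnitalAlgebra.subset_adjoin F (by simp)
    have hb' : b' ∈ T := NonUnitalAlgebra.subset_adjoin F (by simp)
    have hs : s ∈ T := by
      convert T.mul_mem ha hb using 1
      simp [a, b, s, v_mul]
    have hs' : s' ∈ T := by
      convert T.mul_mem ha' hb' using 1
      simp [a', b', s', v_mul]
    have hu : u ∈ T := by
      convert T.add_mem (T.add_mem (T.add_mem (T.mul_mem hs hs) (T.smul_mem (-1) hs))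
        (T.smul_mem (-2) ha)) (T.smul_mem (-2) hb) using 1
      simp [a, b, s, u, v_mul, v_add, v_smul, -neg_smul]
    have := top_of (I := T.toSubmodule) ha hb hs ha' hb' hs' hu
    rw [eq_top_iff]
    intro x _
    have hx : x ∈ T.toSubmodule := by rw [this]; trivial
    exact hx
  · rintro ⟨k, I, hk, hne, hI, -, htop, hz⟩
    obtain ⟨i, -, hj⟩ := family I hI htop hz
    have : Nontrivial (Fin k) := Fin.nontrivial_iff_two_le.mpr hk
    obtain ⟨j, hji⟩ := exists_ne i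
    exact hne j (hj j hji)
  · intro h
    have key : ∀ x y : ({a, b, a', b'} : Set (A F)), (nonAnnGraph _).Reachable x y →
        (x.1 = a ∨ x.1 = b) → (y.1 = a ∨ y.1 = b) := by
      intro x y ⟨w⟩
      induction w with
      | nil => exact id
      | @cons p q r hpq _ ih =>
        intro hp
        apply ih
        obtain ⟨q, hq⟩ := q
        have h2 := hpq.2
        rcases hq with rfl | rfl | rfl | rfl
        · exact Or.inl rfl
        · exact Or.inr rfl
        · exfalso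
          rcases hp with hp | hp <;> rw [hp] at h2 <;> simp [a, b, a', v_mul, v_zero] at h2
        · exfalso
          rcases hp with hp | hp <;> rw [hp] at h2 <;> simp [a, b, b', v_mul, v_zero] at h2
    have := key ⟨a, by simp⟩ ⟨a', by simp⟩ (h _ _) (Or.inl rfl)
    simp [a, b, a', v_inj] at this

end Pool.Agent.Results.MP_8db76d_al.Counterexample
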